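import Pool.Agent.Helper84.BA.Defs1

/-!
# Project BA, B2: scale_small
-/

set_option autoImplicit false

namespace Pool.Agent.Helper94.BA

open Pool.Agent.Helper33.HM

universe u v

theorem h87_leStar_trans {B : Type u} [CompleteBooleanAlgebra B] (a b c : ℕ → ℕ → B) :
    leStar a b ⊓ leStar b c ≤ leStar a c := by
  unfold leStar
  rw [iSup_inf_eq]
  refine iSup_le fun m => ?_
  rw [inf_iSup_eq]
  refine iSup_le fun m' => ?_
  refine le_iSup_of_le (max m m') ?_
  refine le_iInf fun n => le_iInf fun hn => le_iInf fun k => ?_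
  have h1 : (⨅ n : ℕ, ⨅ _ : m ≤ n, ⨅ k : ℕ, b n k ⇨ a n k) ≤ b n k ⇨ a n k :=
    iInf_le_of_le n (iInf_le_of_le ((le_max_left _ _).trans hn) (iInf_le _ k))
  have h2 : (⨅ n : ℕ, ⨅ _ : m' ≤ n, ⨅ k : ℕ, c n k ⇨ b n k) ≤ c n k ⇨ b n k :=
    iInf_le_of_le n (iInf_le_of_le ((le_max_right _ _).trans hn) (iInf_le _ k))
  refine (inf_le_inf h1 h2).trans ?_
  rw [le_himp_iff]
  calc (b n k ⇨ a n k) ⊓ (c n k ⇨ b n k) ⊓ c n k
      = (b n k ⇨ a n k) ⊓ ((c n k ⇨ b n k) ⊓ c n k) := inf_assoc _ _ _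
    _ ≤ (b n k ⇨ a n k) ⊓ b n k := inf_le_inf_left _ himp_inf_le
    _ ≤ a n k := himp_inf_le

theorem h87_compl_leStar {B : Type u} [CompleteBooleanAlgebra B] (f g : ℕ → ℕ → B) :
    (leStar f g)ᶜ = ⨅ m : ℕ, ⨆ n : ℕ, ⨆ _ : m ≤ n, ltAt g f n := by
  unfold leStar ltAt
  simp only [compl_iSup, compl_iInf]
  refine iInf_congr fun m => iSup_congr fun n => iSup_congr fun _ => iSup_congr fun k => ?_
  rw [himp_eq, compl_sup, compl_compl, inf_comm]

/-- N4. -/
theorem scale_small {B : Type u} [CompleteBooleanAlgebra B] (hc : CCC B)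
    {h : Ordinal.{0} → ℕ → ℕ → B} (hh : IsScale h) {ι : Type v} [Small.{0} ι]
    (g : ι → ℕ → ℕ → B) (hg : ∀ i, IsFn Set.univ (g i)) :
    ∃ β, ∀ i m, ⨆ n : ℕ, ⨆ _ : m ≤ n, ltAt (g i) (h β) n = ⊤ := by
  classical
  have anti : ∀ (g : ℕ → ℕ → B) (β γ : Ordinal.{0}), β ≤ γ → leStar (h γ) g ≤ leStar (h β) g := by
    intro g β γ hβγ
    have h1 := h87_leStar_trans (h β) (h γ) g
    rw [hh.mono β γ hβγ, top_inf_eq] at h1
    exact h1
  -- one function
  have one : ∀ g : ℕ → ℕ → B, IsFn Set.univ g → ∃ β, leStar (h β) g = ⊥ := by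
    intro g hg
    have hunb := hh.unb g hg
    obtain ⟨a, -, ha2, -, -, ha5⟩ := exists_partition hc isSub_univ
      (fun c : B => ∃ β, c ⊓ leStar (h β) g = ⊥) (e := (⊤ : B))
      (by
        intro b _ hb
        by_contra hcon
        push Not at hcon
        apply hb
        have h2 : ∀ β, b ≤ leStar (h β) g := by
          intro β
          by_contra hβ
          have h3 : b ⊓ (leStar (h β) g)ᶜ ≠ ⊥ := by
            intro h4
            exact hβ (disjoint_compl_right_iff.1 (disjoint_iff.2 h4))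
          refine hcon (b ⊓ (leStar (h β) g)ᶜ) trivial h3 inf_le_left β ?_
          rw [inf_assoc, compl_inf_eq_bot, inf_bot_eq]
        exact le_bot_iff.1 (hunb ▸ le_iInf h2))
      ⟨0, bot_inf_eq _⟩ trivial
    choose β hβ using ha2
    have hbdd : BddAbove (Set.range β) := Ordinal.bddAbove_of_small
    refine ⟨⨆ n, β n, ?_⟩
    have h1 : ∀ n, a n ⊓ leStar (h (⨆ n, β n)) g = ⊥ := by
      intro n
      apply le_bot_iff.1
      rw [← hβ n]
      exact inf_le_inf_left _ (anti g _ _ (le_ciSup hbdd n))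
    have h2 : (⨆ n, a n) ⊓ leStar (h (⨆ n, β n)) g = ⊥ := by
      rw [iSup_inf_eq]
      simp [h1]
    rwa [ha5, top_inf_eq] at h2
  choose β hβ using fun i => one (g i) (hg i)
  have hbdd : BddAbove (Set.range β) := Ordinal.bddAbove_of_small
  refine ⟨⨆ i, β i, fun i m => ?_⟩
  have h1 : leStar (h (⨆ i, β i)) (g i) = ⊥ := by
    apply le_bot_iff.1
    rw [← hβ i]
    exact anti _ _ _ (le_ciSup hbdd i)
  have h2 := h87_compl_leStar (h (⨆ i, β i)) (g i)
  rw [h1, compl_bot] at h2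
  exact top_unique (h2.le.trans (iInf_le _ m))

end Pool.Agent.Helper94.BA
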